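import Pool.Agent.H974Z.SOA.Tr2

namespace Pool.Agent.Results.MP_3ad381_lc.ANoSelfSound

open Pool.Agent.H974Z.SOA

/-- No Pi-1-1-sound, Sigma-1-1-definable extension of ACA0 proves its own Pi-1-1-soundness.
The first part is a check: adequate arithmetisations exist. -/
theorem result : (∃ Φ P Tr : Fm, IsDerivPred Φ ∧ IsPi11Pred P ∧ IsTruthPred Tr) ∧
    ∀ Φ P Tr : Fm, IsDerivPred Φ → IsPi11Pred P → IsTruthPred Tr →
    ∀ T : Set Fm, (∀ ψ ∈ T, ψ.IsSentence) → (∀ ψ ∈ ACA0, Prov T ψ) →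
      (∀ φ : Fm, φ.IsPi11 → φ.IsSentence → Prov T φ → TrueAt φ 0 ∅) →
      ∀ τ : Fm, τ.IsSigma11 → τ.Bd 1 0 → (∀ n : ℕ, TrueAt τ n ∅ ↔ ∃ ψ ∈ T, ψ.code = n) →
        ¬ Prov T (soundness Φ P Tr τ) :=
  ⟨exists_derivPred.elim fun Φ h1 => exists_pi11Pred.elim fun P h2 =>
      exists_truthPred.elim fun Tr h3 => ⟨Φ, P, Tr, h1, h2, h3⟩,
    fun _ _ _ hΦ hP hTr _ hT hA hs _ hτ hτb hdef => main hΦ hP hTr hT hA hs hτ hτb hdef⟩

end Pool.Agent.Results.MP_3ad381_lc.ANoSelfSound
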